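import Pool.Agent.W927.Defs
import Pool.Agent.W927.BM.Defs

set_option autoImplicit false

/-!
# Locally checkable labelling problems on graphs, and the shift graph

Definitions and the local analysis of the labelling problem which encodes coordinates.
-/

namespace Pool.Agent.Y569.GL

open MeasureTheory

/-! ### Rooted labelled graphs and labelling problems -/

/-- A rooted graph with vertices labelled by `Fin k`. -/
structure RG (k : ℕ) where
  /-- the vertices -/
  W : Type
  /-- the graph -/
  G : SimpleGraph W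
  /-- the root -/
  root : W
  /-- the labels -/
  lab : W → Fin k

/-- Isomorphism of rooted labelled graphs. -/
def RG.Iso {k : ℕ} (A B : RG k) : Prop :=
  ∃ e : A.G ≃g B.G, e A.root = B.root ∧ ∀ w, B.lab (e w) = A.lab w

/-- Isomorphism is an equivalence relation. -/
def RG.setoid (k : ℕ) : Setoid (RG k) where
  r := RG.Iso
  iseqv := by
    refine ⟨fun A => ⟨.refl, rfl, fun _ => rfl⟩, ?_, ?_⟩
    · rintro A B ⟨e, h1, h2⟩
      refine ⟨e.symm, ?_, fun w => ?_⟩
      · rw [← h1]; simp
      · rw [← h2]; simp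
    · rintro A B C ⟨e, h1, h2⟩ ⟨f, h3, h4⟩
      refine ⟨e.trans f, ?_, fun w => ?_⟩
      · simp [h1, h3]
      · simp [h2, h4]

/-- Isomorphism types of rooted labelled graphs. -/
abbrev RGType (k : ℕ) := Quotient (RG.setoid k)

/-- The ball of radius `r` around `v`: the endpoints of walks of length at most `r` from `v`. -/
def ball {V : Type} (G : SimpleGraph V) (r : ℕ) (v : V) : Set V :=
  {u | ∃ p : G.Walk v u, p.length ≤ r}

theorem mem_ball_self {V : Type} (G : SimpleGraph V) (r : ℕ) (v : V) : v ∈ ball G r v :=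
  ⟨.nil, Nat.zero_le _⟩

/-- The ball of radius `r` around `v` as an induced subgraph, rooted at `v` and labelled by `f`. -/
def ballRG {V : Type} (G : SimpleGraph V) (r : ℕ) {k : ℕ} (f : V → Fin k) (v : V) : RG k where
  W := ball G r v
  G := G.induce (ball G r v)
  root := ⟨v, mem_ball_self G r v⟩
  lab := fun w => f w

/-- A locally checkable labelling problem: the labels `Fin k`, the radius `r` and a set of
isomorphism types of finite rooted labelled graphs of radius at most `r`. -/
structure LCL where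
  /-- the number of labels -/
  k : ℕ
  /-- the radius -/
  r : ℕ
  /-- the allowed isomorphism types -/
  P : Set (RGType k)
  /-- they are types of finite rooted graphs of radius at most `r` -/
  small : ∀ B : RG k, Quotient.mk (RG.setoid k) B ∈ P →
    Finite B.W ∧ ∀ w, w ∈ ball B.G r B.root

/-- `f` is a solution of the problem `L` on the graph `G`: the ball around every vertex is
allowed. -/
def LCL.IsSolution (L : LCL) {V : Type} (G : SimpleGraph V) (f : V → Fin L.k) : Prop :=
  ∀ v, Quotient.mk (RG.setoid L.k) (ballRG G L.r f v) ∈ L.P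

/-! ### The graph of an action of `ℤ^d` -/

/-- The unit vectors `e_i` and `- e_i`. -/
def vec {d : ℕ} (u : Fin d × Bool) : Fin d → ℤ :=
  if u.2 = true then Pi.single u.1 1 else -Pi.single u.1 1

/-- The opposite direction. -/
def op {d : ℕ} (u : Fin d × Bool) : Fin d × Bool := (u.1, !u.2)

section vec

variable {d : ℕ}

theorem vec_op (u : Fin d × Bool) : vec (op u) = -vec u := by
  obtain ⟨i, b⟩ := u
  cases b <;> simp [vec, op]

theorem op_op (u : Fin d × Bool) : op (op u) = u := by
  obtain ⟨i, b⟩ := u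
  simp [op]

theorem vec_apply (u : Fin d × Bool) (j : Fin d) :
    vec u j = if j = u.1 then (if u.2 = true then 1 else -1) else 0 := by
  obtain ⟨i, b⟩ := u
  by_cases h : j = i
  · subst h
    cases b <;> simp [vec]
  · cases b <;> simp [vec, h]

theorem vec_ne_zero (u : Fin d × Bool) : vec u ≠ 0 := by
  intro h
  have := congrFun h u.1
  rw [vec_apply, if_pos rfl, Pi.zero_apply] at this
  split_ifs at this
  all_goals omega

theorem vec_inj {u v : Fin d × Bool} (h : vec u = vec v) : u = v := by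
  obtain ⟨i, b⟩ := u
  obtain ⟨j, c⟩ := v
  have h1 := congrFun h i
  rw [vec_apply, vec_apply, if_pos rfl] at h1
  by_cases hij : i = j
  · subst hij
    rw [if_pos rfl] at h1
    cases b <;> cases c <;> simp_all
  · rw [if_neg hij] at h1
    cases b <;> simp at h1

/-- If `a + b = c + e` for unit vectors, then the sum is zero or the pairs are the same. -/
theorem vec_sum {a b c e : Fin d × Bool} (h : vec a + vec b = vec c + vec e) :
    (vec a = -vec b ∧ vec c = -vec e) ∨ (a = c ∧ b = e) ∨ (a = e ∧ b = c) := by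
  by_cases hab : vec a = -vec b
  · refine Or.inl ⟨hab, ?_⟩
    rw [hab, neg_add_cancel] at h
    exact eq_neg_of_add_eq_zero_left h.symm
  · right
    have key : ∀ {a b : Fin d × Bool}, vec a ≠ -vec b → ∀ c e, vec a + vec b = vec c + vec e →
        c = a ∨ e = a := by
      intro a b hab c e h
      have h1 := congrFun h a.1
      simp only [Pi.add_apply, vec_apply, if_true] at h1
      have hab' : ¬ (a.1 = b.1 ∧ a.2 ≠ b.2) := by
        rintro ⟨h3, h4⟩
        apply hab
        rw [← vec_op]
        congr 1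
        unfold op
        refine Prod.ext h3 ?_
        simp only
        revert h4
        cases a.2 <;> cases b.2 <;> simp
      obtain ⟨a1, a2⟩ := a
      obtain ⟨b1, b2⟩ := b
      obtain ⟨c1, c2⟩ := c
      obtain ⟨e1, e2⟩ := e
      simp only at h1 hab' ⊢
      by_cases hc : a1 = c1 <;> by_cases he : a1 = e1 <;> by_cases hb : a1 = b1 <;>
        simp only [hc, he, hb, if_true, if_false, true_and] at h1 hab' ⊢ <;>
        cases a2 <;> cases b2 <;> cases c2 <;> cases e2 <;> simp_all
    rcases key hab c e h with h1 | h1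
    · subst h1
      exact Or.inl ⟨rfl, vec_inj (add_left_cancel h)⟩
    · subst h1
      rw [add_comm (vec c)] at h
      exact Or.inr ⟨rfl, vec_inj (add_left_cancel h)⟩

end vec

/-- The standard graph on `ℤ^d`. -/
def Grid (d : ℕ) : SimpleGraph (Fin d → ℤ) where
  Adj g h := ∃ u : Fin d × Bool, h = vec u + g
  symm := ⟨by
    rintro g h ⟨u, rfl⟩
    exact ⟨op u, by rw [vec_op, neg_add_cancel_left]⟩⟩
  loopless := ⟨by
    rintro g ⟨u, h⟩
    exact vec_ne_zero u (by simpa using h.symm)⟩

theorem grid_adj {d : ℕ} (u : Fin d × Bool) (g : Fin d → ℤ) : (Grid d).Adj g (vec u + g) :=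
  ⟨u, rfl⟩

/-- A free action of `ℤ^d`. -/
structure FreeAct {d : ℕ} {X : Type} (a : (Fin d → ℤ) → X → X) : Prop where
  zero : ∀ x, a 0 x = x
  add : ∀ g h x, a (g + h) x = a g (a h x)
  free : ∀ g x, a g x = x → g = 0

/-- The graph of a free action of `ℤ^d`. -/
def AGraph {d : ℕ} {X : Type} {a : (Fin d → ℤ) → X → X} (ha : FreeAct a) : SimpleGraph X where
  Adj x y := ∃ u : Fin d × Bool, y = a (vec u) x
  symm := ⟨by
    rintro x y ⟨u, rfl⟩
    exact ⟨op u, by rw [vec_op, ← ha.add, neg_add_cancel, ha.zero]⟩⟩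
  loopless := ⟨by
    rintro x ⟨u, h⟩
    exact vec_ne_zero u (ha.free _ _ h.symm)⟩

namespace FreeAct

variable {d : ℕ} {X : Type} {a : (Fin d → ℤ) → X → X} (ha : FreeAct a)
include ha

theorem inj {g h : Fin d → ℤ} {x : X} (e : a g x = a h x) : g = h := by
  have h1 : a (-h + g) x = x := by
    rw [ha.add, e, ← ha.add, neg_add_cancel, ha.zero]
  have h2 := ha.free _ _ h1
  rwa [neg_add_eq_zero, eq_comm] at h2

theorem adj_iff {g h : Fin d → ℤ} {x : X} :
    (AGraph ha).Adj (a g x) (a h x) ↔ (Grid d).Adj g h := by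
  constructor
  · rintro ⟨u, hu⟩
    rw [← ha.add] at hu
    exact ⟨u, ha.inj hu⟩
  · rintro ⟨u, rfl⟩
    exact ⟨u, ha.add _ _ _⟩

/-- Walks starting in an orbit. -/
theorem walk_push {g h : Fin d → ℤ} (x : X) (p : (Grid d).Walk g h) :
    ∃ q : (AGraph ha).Walk (a g x) (a h x), q.length = p.length := by
  induction p with
  | nil => exact ⟨.nil, rfl⟩
  | cons h _ ih =>
    obtain ⟨q, hq⟩ := ih
    exact ⟨.cons (ha.adj_iff.2 h) q, by simp [hq]⟩

theorem walk_pull {y z : X} (x : X) (p : (AGraph ha).Walk y z) :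
    ∀ g, y = a g x → ∃ h, z = a h x ∧ ∃ q : (Grid d).Walk g h, q.length = p.length := by
  induction p with
  | nil => intro g hg; exact ⟨g, hg, .nil, rfl⟩
  | cons h _ ih =>
    intro g hg
    obtain ⟨u, hu⟩ := id h
    obtain ⟨h', h1, q, hq⟩ := ih (vec u + g) (by rw [hu, hg, ha.add])
    exact ⟨h', h1, .cons (grid_adj u g) q, by
      rw [SimpleGraph.Walk.length_cons, SimpleGraph.Walk.length_cons, hq]⟩

theorem mem_ball_iff {r : ℕ} {x y : X} :
    y ∈ ball (AGraph ha) r x ↔ ∃ g ∈ ball (Grid d) r 0, y = a g x := by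
  constructor
  · rintro ⟨p, hp⟩
    obtain ⟨h, h1, q, hq⟩ := ha.walk_pull x p 0 (ha.zero x).symm
    exact ⟨h, ⟨q, by rw [hq]; exact hp⟩, h1⟩
  · rintro ⟨g, ⟨q, hq⟩, rfl⟩
    obtain ⟨p, hp⟩ := ha.walk_push x q
    exact ⟨p.copy (ha.zero x) rfl, by simpa [hp] using hq⟩

theorem mem_ball {r : ℕ} {x : X} {g : Fin d → ℤ} :
    a g x ∈ ball (AGraph ha) r x ↔ g ∈ ball (Grid d) r 0 := by
  rw [ha.mem_ball_iff]
  constructor
  · rintro ⟨h, hh, e⟩
    rw [ha.inj e]
    exact hh
  · exact fun h => ⟨g, h, rfl⟩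

/-- The ball in the graph of a free action is isomorphic to the ball in the grid. -/
theorem ballRG_iso {k : ℕ} (r : ℕ) (f : X → Fin k) (x : X) :
    RG.Iso (ballRG (Grid d) r (fun g => f (a g x)) 0) (ballRG (AGraph ha) r f x) := by
  let φ : ball (Grid d) r 0 → ball (AGraph ha) r x := fun g => ⟨a g.1 x, ha.mem_ball.2 g.2⟩
  have hφ : Function.Bijective φ := by
    constructor
    · intro g h e
      exact Subtype.ext (ha.inj (congrArg Subtype.val e))
    · rintro ⟨y, hy⟩
      obtain ⟨g, hg, rfl⟩ := ha.mem_ball_iff.1 hy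
      exact ⟨⟨g, hg⟩, rfl⟩
  refine ⟨⟨Equiv.ofBijective φ hφ, ?_⟩, ?_, ?_⟩
  · intro g h
    exact ha.adj_iff
  · exact Subtype.ext (ha.zero x)
  · intro w
    rfl

end FreeAct

/-- Balls have the right radius. -/
theorem ball_induce {V : Type} (G : SimpleGraph V) (r : ℕ) (v : V) (w : ball G r v) :
    w ∈ ball (G.induce (ball G r v)) r ⟨v, mem_ball_self G r v⟩ := by
  classical
  obtain ⟨w, p, hp⟩ := w
  have h1 : ∀ x ∈ p.support, x ∈ ball G r v := fun x hx =>
    ⟨p.takeUntil x hx, (p.length_takeUntil_le_length hx).trans hp⟩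
  refine ⟨p.induce _ h1, ?_⟩
  have h2 : ∀ {v w : V} (p : G.Walk v w) (s : Set V) (h : ∀ x ∈ p.support, x ∈ s),
      (p.induce s h).length = p.length := by
    intro v w p s
    induction p with
    | nil => intro h; rfl
    | cons hh p ih =>
      intro h
      simp only [SimpleGraph.Walk.induce_cons, SimpleGraph.Walk.length_cons]
      rw [ih]
  rw [h2]
  exact hp

theorem grid_ball_abs {d r : ℕ} {g : Fin d → ℤ} (hg : g ∈ ball (Grid d) r 0) (i : Fin d) :
    |g i| ≤ r := by
  have key : ∀ {g h : Fin d → ℤ} (p : (Grid d).Walk g h), |h i - g i| ≤ p.length := by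
    intro g h p
    induction p with
    | nil => simp
    | @cons g g' h hh p ih =>
      obtain ⟨u, hu⟩ := id hh
      rw [SimpleGraph.Walk.length_cons]
      have h1 : |vec u i| ≤ 1 := by
        rw [vec_apply]
        split_ifs <;> simp
      have h2 : h i - g i = (h i - g' i) + vec u i := by
        rw [hu, Pi.add_apply]; ring
      rw [h2]
      push_cast
      exact (abs_add_le _ _).trans (by linarith)
  obtain ⟨p, hp⟩ := hg
  have := key p
  rw [Pi.zero_apply, sub_zero] at this
  exact this.trans (by exact_mod_cast hp)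

theorem grid_ball_finite (d r : ℕ) : (ball (Grid d) r 0).Finite := by
  refine (Set.finite_Icc (fun _ => -(r : ℤ) : Fin d → ℤ) (fun _ => (r : ℤ))).subset ?_
  intro g hg
  exact ⟨fun i => (abs_le.1 (grid_ball_abs hg i)).1, fun i => (abs_le.1 (grid_ball_abs hg i)).2⟩

/-- Steps in the grid. -/
theorem ball_step {d r : ℕ} {g : Fin d → ℤ} (hg : g ∈ ball (Grid d) r 0) (u : Fin d × Bool) :
    vec u + g ∈ ball (Grid d) (r + 1) 0 := by
  obtain ⟨p, hp⟩ := hg
  exact ⟨p.concat (grid_adj u g), by rw [SimpleGraph.Walk.length_concat]; omega⟩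

theorem ball_mono {V : Type} {G : SimpleGraph V} {r s : ℕ} (h : r ≤ s) {v : V} :
    ball G r v ⊆ ball G s v := fun _ ⟨p, hp⟩ => ⟨p, hp.trans h⟩

end Pool.Agent.Y569.GL
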