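import Mathlib

set_option autoImplicit false

/-!
# Borel maximal independent sets and Borel colourings for free Borel actions

For a free Borel action of a group on a standard Borel space and a finite set `F` of nonzero
elements with `-F = F`, every Borel set has a Borel maximal `F`-independent subset, and there is a
Borel colouring with `|F| + 1` colours in which `x` and `g + x` have different colours for `g ∈ F`.
-/

namespace Pool.Agent.Y569.GL

open MeasureTheory

/-- A countable family of Borel sets that separates every point from every finite set. -/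
theorem exists_sepfam (X : Type) [MeasurableSpace X] [StandardBorelSpace X] :
    ∃ B : ℕ → Set X, (∀ n, MeasurableSet (B n)) ∧
      ∀ (v : X) (F : Set X), F.Finite → v ∉ F → ∃ n, v ∈ B n ∧ ∀ w ∈ F, w ∉ B n := by
  obtain ⟨q, hq⟩ := exists_surjective_nat (ℚ × ℚ)
  refine ⟨fun n => (embeddingReal X) ⁻¹' Set.Ioo ((q n).1 : ℝ) ((q n).2 : ℝ), fun n =>
    (measurableEmbedding_embeddingReal X).measurable measurableSet_Ioo, ?_⟩
  intro v F hF hv
  have h1 : IsOpen ((embeddingReal X '' F)ᶜ) := (hF.image _).isClosed.isOpen_compl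
  have h2 : embeddingReal X v ∈ (embeddingReal X '' F)ᶜ := by
    rintro ⟨w, hw, h⟩
    exact hv ((measurableEmbedding_embeddingReal X).injective h ▸ hw)
  obtain ⟨s, hs, hvs, hsub⟩ := Real.isTopologicalBasis_Ioo_rat.exists_subset_of_mem_open h2 h1
  simp only [Set.mem_iUnion, Set.mem_singleton_iff] at hs
  obtain ⟨a, b, -, rfl⟩ := hs
  obtain ⟨n, hn⟩ := hq (a, b)
  refine ⟨n, ?_, fun w hw hw' => ?_⟩
  · rw [Set.mem_preimage, hn]; exact hvs
  · rw [Set.mem_preimage, hn] at hw'
    exact hsub hw' ⟨w, hw, rfl⟩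

section

variable {Γ X : Type} [AddGroup Γ]

/-- The greedy sets. -/
def Wn (a : Γ → X → X) (F : Finset Γ) (An : ℕ → Set X) : ℕ → Set X
  | 0 => ∅
  | n + 1 => Wn a F An n ∪ {v | v ∈ An n ∧ v ∉ Wn a F An n ∧ ∀ g ∈ F, a g v ∉ Wn a F An n}

variable [MeasurableSpace X] [StandardBorelSpace X]

/-- Borel maximal independent subsets. -/
theorem maxInd {a : Γ → X → X} (h0 : ∀ x, a 0 x = x)
    (hadd : ∀ g h x, a (g + h) x = a g (a h x)) (hm : ∀ g, Measurable (a g))
    (hfree : ∀ g x, a g x = x → g = 0) (F : Finset Γ) (hF0 : (0 : Γ) ∉ F)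
    (hFn : ∀ g ∈ F, -g ∈ F) {A : Set X} (hA : MeasurableSet A) :
    ∃ W ⊆ A, MeasurableSet W ∧ (∀ v ∈ W, ∀ g ∈ F, a g v ∉ W) ∧
      ∀ v ∈ A, v ∈ W ∨ ∃ g ∈ F, a g v ∈ W := by
  obtain ⟨B, hBm, hB⟩ := exists_sepfam X
  set An : ℕ → Set X := fun n => {v | v ∈ A ∧ v ∈ B n ∧ ∀ g ∈ F, a g v ∉ B n} with hAn
  have hAnm : ∀ n, MeasurableSet (An n) := by
    intro n
    have : An n = A ∩ (B n ∩ ⋂ g ∈ F, (a g ⁻¹' B n)ᶜ) := by
      ext v
      simp only [hAn, Set.mem_ofPred_eq, Set.mem_inter_iff, Set.mem_compl_iff,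
        Set.mem_iInter, Set.mem_preimage]
    rw [this]
    exact hA.inter ((hBm n).inter (Finset.measurableSet_biInter F fun g _ => (hm g (hBm n)).compl))
  have hWm : ∀ n, MeasurableSet (Wn a F An n) := by
    intro n
    induction n with
    | zero => exact MeasurableSet.empty
    | succ n ih =>
      have : Wn a F An (n + 1) = Wn a F An n ∪
          (An n ∩ ((Wn a F An n)ᶜ ∩ ⋂ g ∈ F, (a g ⁻¹' Wn a F An n)ᶜ)) := by
        ext v
        simp only [Wn, Set.mem_union, Set.mem_ofPred_eq, Set.mem_inter_iff, Set.mem_compl_iff,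
          Set.mem_iInter, Set.mem_preimage]
      rw [this]
      exact ih.union ((hAnm n).inter (ih.compl.inter
        (Finset.measurableSet_biInter F fun g _ => (hm g ih).compl)))
  have hmono : ∀ n m, n ≤ m → Wn a F An n ⊆ Wn a F An m := by
    intro n m h
    induction m, h using Nat.le_induction with
    | base => exact subset_rfl
    | succ m _ ih => exact ih.trans Set.subset_union_left
  have hWA : ∀ n, Wn a F An n ⊆ A := by
    intro n
    induction n with
    | zero => exact Set.empty_subset _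
    | succ n ih =>
      rintro v (h | h)
      · exact ih h
      · exact h.1.1
  have henter : ∀ n, ∀ v ∈ Wn a F An n, ∃ m < n, v ∈ An m ∧
      (∀ g ∈ F, a g v ∉ Wn a F An m) ∧ v ∈ Wn a F An (m + 1) := by
    intro n
    induction n with
    | zero => intro v hv; exact absurd hv (Set.notMem_empty v)
    | succ n ih =>
      rintro v (h | h)
      · obtain ⟨m, hm, h'⟩ := ih v h
        exact ⟨m, by omega, h'⟩
      · exact ⟨n, by omega, h.1, h.2.2, Or.inr h⟩
  refine ⟨⋃ n, Wn a F An n, Set.iUnion_subset hWA, MeasurableSet.iUnion hWm, ?_, ?_⟩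
  · intro v hv g hg hu
    rw [Set.mem_iUnion] at hv hu
    obtain ⟨n, hv⟩ := hv
    obtain ⟨n', hu⟩ := hu
    obtain ⟨m, -, hm1, hm2, hm3⟩ := henter n v hv
    obtain ⟨m', -, hm1', hm2', hm3'⟩ := henter n' _ hu
    rcases lt_trichotomy m m' with h | h | h
    · refine hm2' (-g) (hFn g hg) ?_
      rw [← hadd, neg_add_cancel, h0]
      exact hmono (m + 1) m' h hm3
    · subst h
      exact hm1.2.2 g hg hm1'.2.1
    · exact hm2 g hg (hmono (m' + 1) m h hm3')
  · intro v hv
    obtain ⟨n, hn1, hn2⟩ := hB v ((fun g => a g v) '' (F : Set Γ))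
      (F.finite_toSet.image _) (by
        rintro ⟨g, hg, h⟩
        exact hF0 (hfree g v h ▸ hg))
    have hvn : v ∈ An n := ⟨hv, hn1, fun g hg => hn2 _ ⟨g, hg, rfl⟩⟩
    by_cases h1 : v ∈ Wn a F An n
    · exact Or.inl (Set.mem_iUnion.2 ⟨n, h1⟩)
    · by_cases h2 : ∀ g ∈ F, a g v ∉ Wn a F An n
      · exact Or.inl (Set.mem_iUnion.2 ⟨n + 1, Or.inr ⟨hvn, h1, h2⟩⟩)
      · push Not at h2
        obtain ⟨g, hg, h⟩ := h2
        exact Or.inr ⟨g, hg, Set.mem_iUnion.2 ⟨n, h⟩⟩

/-- Borel colourings. -/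
theorem exists_col {a : Γ → X → X} (h0 : ∀ x, a 0 x = x)
    (hadd : ∀ g h x, a (g + h) x = a g (a h x)) (hm : ∀ g, Measurable (a g))
    (hfree : ∀ g x, a g x = x → g = 0) (F : Finset Γ) (hF0 : (0 : Γ) ∉ F)
    (hFn : ∀ g ∈ F, -g ∈ F) :
    ∃ c : X → Fin (F.card + 1), Measurable c ∧ ∀ v, ∀ g ∈ F, c (a g v) ≠ c v := by
  classical
  have hmax : ∀ A : {A : Set X // MeasurableSet A}, ∃ W : {A : Set X // MeasurableSet A},
      W.1 ⊆ A.1 ∧ (∀ v ∈ W.1, ∀ g ∈ F, a g v ∉ W.1) ∧
      ∀ v ∈ A.1, v ∈ W.1 ∨ ∃ g ∈ F, a g v ∈ W.1 := by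
    intro A
    obtain ⟨W, h1, h2, h3, h4⟩ := maxInd h0 hadd hm hfree F hF0 hFn A.2
    exact ⟨⟨W, h2⟩, h1, h3, h4⟩
  choose W hW1 hW2 hW3 using hmax
  -- remaining sets
  let R : ℕ → {A : Set X // MeasurableSet A} := fun n =>
    Nat.rec ⟨Set.univ, MeasurableSet.univ⟩ (fun _ A => ⟨A.1 \ (W A).1, A.2.diff (W A).2⟩) n
  have hRs : ∀ n, (R (n + 1)).1 = (R n).1 \ (W (R n)).1 := fun n => rfl
  have hRmono : ∀ n m, n ≤ m → (R m).1 ⊆ (R n).1 := by
    intro n m h
    induction m, h using Nat.le_induction with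
    | base => exact subset_rfl
    | succ m _ ih => rw [hRs]; exact Set.sdiff_subset.trans ih
  have hnot : ∀ v n, v ∉ (R n).1 → ∃ i < n, v ∈ (W (R i)).1 := by
    intro v n
    induction n with
    | zero => intro h; exact absurd (Set.mem_univ v) h
    | succ n ih =>
      intro h
      rw [hRs] at h
      by_cases h1 : v ∈ (R n).1
      · exact ⟨n, by omega, by_contra fun h2 => h ⟨h1, h2⟩⟩
      · obtain ⟨i, hi, h'⟩ := ih h1
        exact ⟨i, by omega, h'⟩
  have hdisj : ∀ v i j, v ∈ (W (R i)).1 → v ∈ (W (R j)).1 → i = j := by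
    have key : ∀ v i j, i < j → v ∈ (W (R i)).1 → v ∈ (W (R j)).1 → False := by
      intro v i j hij h1 h2
      have h3 := hRmono (i + 1) j hij (hW1 _ h2)
      rw [hRs] at h3
      exact h3.2 h1
    intro v i j h1 h2
    rcases lt_trichotomy i j with h | h | h
    · exact (key v i j h h1 h2).elim
    · exact h
    · exact (key v j i h h2 h1).elim
  have hall : ∀ v, ∃ i < F.card + 1, v ∈ (W (R i)).1 := by
    intro v
    by_contra hcon
    push Not at hcon
    have hvR : ∀ n ≤ F.card + 1, v ∈ (R n).1 := by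
      intro n hn
      by_contra h
      obtain ⟨i, hi, h'⟩ := hnot v n h
      exact hcon i (by omega) h'
    have hg : ∀ i : Fin (F.card + 1), ∃ g : F, a g.1 v ∈ (W (R i)).1 := by
      intro i
      rcases hW3 (R i) v (hvR i (by omega)) with h | ⟨g, hg, h⟩
      · exact absurd h (hcon i i.2)
      · exact ⟨⟨g, hg⟩, h⟩
    choose g hg using hg
    have hinj : Function.Injective g := by
      intro i j hij
      have h1 := hg i
      have h2 := hg j
      rw [hij] at h1
      exact Fin.ext (hdisj _ _ _ h1 h2)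
    have := Fintype.card_le_of_injective g hinj
    rw [Fintype.card_fin, Fintype.card_coe] at this
    omega
  choose c hc1 hc2 using hall
  refine ⟨fun v => ⟨c v, hc1 v⟩, ?_, ?_⟩
  · refine measurable_to_countable' fun i => ?_
    have : (fun v => (⟨c v, hc1 v⟩ : Fin (F.card + 1))) ⁻¹' {i} = (W (R i)).1 := by
      ext v
      simp only [Set.mem_preimage, Set.mem_singleton_iff]
      constructor
      · intro h
        have : c v = i := congrArg Fin.val h
        rw [← this]
        exact hc2 v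
      · intro h
        exact Fin.ext (hdisj v _ _ (hc2 v) h)
    rw [this]
    exact (W (R i)).2
  · intro v g hg h
    have h1 : c (a g v) = c v := congrArg Fin.val h
    have h2 := hc2 (a g v)
    rw [h1] at h2
    exact hW2 (R (c v)) v (hc2 v) g hg h2

end

end Pool.Agent.Y569.GL
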