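import Pool.Agent.Y569.GL.Gr
import Pool.Agent.W927.BM.Own

set_option autoImplicit false

/-!
# The labelling problem which encodes coordinates

A label consists of a colour, the colours of the neighbours in all directions, and a label of a
planar problem. A solution on the graph of a free action of `ℤ^d` gives commuting permutations which
differ from the generators only by a signed permutation of the coordinates which is constant on
every orbit.
-/

namespace Pool.Agent.Y569.GL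

open MeasureTheory Pool.Agent.W927.BM

/-- Labels: colour of the vertex, colours of its neighbours, label of the planar problem. -/
abbrev Sg (d m : ℕ) : Type := Fin m × (Fin d × Bool → Fin m) × Lab

/-- The allowed labellings of a ball of the grid, in coordinates. -/
structure Good {d m k : ℕ} (hd : 2 ≤ d) (e : Fin k ≃ Sg d m) (h : (Fin d → ℤ) → Fin k) :
    Prop where
  nb : ∀ g ∈ ball (Grid d) 3 0, ∀ u, (e (h g)).2.1 u = (e (h (vec u + g))).1
  ne : ∀ g ∈ ball (Grid d) 3 0, ∀ u v, u ≠ v → (e (h (vec u + g))).1 ≠ (e (h (vec v + g))).1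
  rule : Rule (fun t x => (e (h (emb hd t x))).2.2) 0 0

theorem mem_ball_iso {A B : Type} {G : SimpleGraph A} {H : SimpleGraph B} (φ : G ≃g H) {r : ℕ}
    {v w : A} (h : w ∈ ball G r v) : φ w ∈ ball H r (φ v) := by
  obtain ⟨p, hp⟩ := h
  exact ⟨p.map φ.toHom, by rw [SimpleGraph.Walk.length_map]; exact hp⟩

/-- The labelling problem. -/
def prob {d m k : ℕ} (hd : 2 ≤ d) (e : Fin k ≃ Sg d m) : LCL where
  k := k
  r := 4
  P := {t | ∃ h, Good hd e h ∧ Quotient.mk (RG.setoid k) (ballRG (Grid d) 4 h 0) = t}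
  small := by
    rintro B ⟨h, -, hB⟩
    obtain ⟨φ, h1, h2⟩ : RG.Iso (ballRG (Grid d) 4 h 0) B := Quotient.exact hB
    constructor
    · have : Finite (ballRG (Grid d) 4 h 0).W := (grid_ball_finite d 4).to_subtype
      exact Finite.of_equiv _ φ.toEquiv
    · intro w
      have h3 := mem_ball_iso φ (ball_induce (Grid d) 4 0 (φ.symm w))
      have h4 : φ (φ.symm w) = w := φ.apply_symm_apply w
      rw [h4] at h3
      have h5 : φ ⟨0, mem_ball_self (Grid d) 4 0⟩ = B.root := h1
      rw [h5] at h3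
      exact h3

section Local

variable {d m k : ℕ} {hd : 2 ≤ d} {e : Fin k ≃ Sg d m} {X : Type} {a : (Fin d → ℤ) → X → X}
  (ha : FreeAct a) {f : X → Fin k}

theorem exists_chart (hf : (prob hd e).IsSolution (AGraph ha) f) (x : X) :
    ∃ (h : (Fin d → ℤ) → Fin k) (φ : (Fin d → ℤ) → X), Good hd e h ∧ φ 0 = x ∧
      (∀ g ∈ ball (Grid d) 4 0, f (φ g) = h g) ∧
      (∀ g ∈ ball (Grid d) 3 0, ∀ u, (AGraph ha).Adj (φ g) (φ (vec u + g))) ∧
      ∀ y, (AGraph ha).Adj x y → ∃ u, y = φ (vec u) := by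
  classical
  obtain ⟨h, hG, hB⟩ := hf x
  obtain ⟨φ, h1, h2⟩ : RG.Iso (ballRG (Grid d) 4 h 0) (ballRG (AGraph ha) 4 f x) :=
    Quotient.exact hB
  have hφ : ∀ (g h : ball (Grid d) 4 0), (Grid d).Adj g.1 h.1 ↔
      (AGraph ha).Adj (φ g).1 (φ h).1 := fun g h => (φ.map_rel_iff (a := g) (b := h)).symm
  refine ⟨h, fun g => if hg : g ∈ ball (Grid d) 4 0 then (φ ⟨g, hg⟩).1 else x, hG, ?_, ?_, ?_, ?_⟩
  · simp only
    rw [dif_pos (mem_ball_self _ _ _)]
    exact congrArg Subtype.val h1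
  · intro g hg
    simp only
    rw [dif_pos hg]
    exact h2 ⟨g, hg⟩
  · intro g hg u
    have hg4 : g ∈ ball (Grid d) 4 0 := ball_mono (by norm_num) hg
    have hu4 : vec u + g ∈ ball (Grid d) 4 0 := ball_step hg u
    simp only
    rw [dif_pos hg4, dif_pos hu4]
    exact (hφ ⟨g, hg4⟩ ⟨vec u + g, hu4⟩).1 (grid_adj u g)
  · intro y hy
    have hyb : y ∈ ball (AGraph ha) 4 x := ⟨.cons hy .nil, by
      rw [SimpleGraph.Walk.length_cons, SimpleGraph.Walk.length_nil]; norm_num⟩
    obtain ⟨⟨g, hg⟩, hgy⟩ := φ.surjective ⟨y, hyb⟩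
    have h3 : (φ ⟨0, mem_ball_self _ _ _⟩).1 = x := congrArg Subtype.val h1
    have h4 : (φ ⟨g, hg⟩).1 = y := congrArg Subtype.val hgy
    have h5 : (Grid d).Adj 0 g := by
      refine (hφ ⟨0, mem_ball_self _ _ _⟩ ⟨g, hg⟩).2 ?_
      rw [h3, h4]
      exact hy
    obtain ⟨u, hu⟩ := h5
    rw [add_zero] at hu
    subst hu
    refine ⟨u, ?_⟩
    simp only
    rw [dif_pos hg]
    exact h4.symm

/-- The structure given by a solution: `nb x u` is the neighbour of `x` in direction `u`. -/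
structure Nb (hd : 2 ≤ d) (e : Fin k ≃ Sg d m) (ha : FreeAct a) (f : X → Fin k)
    (nb : X → Fin d × Bool → X) : Prop where
  iff : ∀ x u y, ((AGraph ha).Adj x y ∧ (e (f y)).1 = (e (f x)).2.1 u) ↔ y = nb x u
  surj : ∀ x y, (AGraph ha).Adj x y → ∃ u, y = nb x u
  inj : ∀ x u v, nb x u = nb x v → u = v
  comm : ∀ x u v, nb (nb x u) v = nb (nb x v) u
  inv : ∀ x u, nb (nb x u) (op u) = x
  chart : ∀ x, ∃ φ : (Fin d → ℤ) → X, φ 0 = x ∧
    (∀ g ∈ ball (Grid d) 3 0, ∀ u, φ (vec u + g) = nb (φ g) u) ∧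
    ∀ s : ℤ → ℤ → X, (∀ t z : ℤ, |t| ≤ 2 → |z| ≤ 2 → emb hd t z ∈ ball (Grid d) 4 0 ∧
      s t z = φ (emb hd t z)) → Rule (fun t z => (e (f (s t z))).2.2) 0 0

theorem exists_nb (hf : (prob hd e).IsSolution (AGraph ha) f) : ∃ nb, Nb hd e ha f nb := by
  have hex : ∀ x u, ∃ y, ((AGraph ha).Adj x y ∧ (e (f y)).1 = (e (f x)).2.1 u) ∧
      ∀ z, ((AGraph ha).Adj x z ∧ (e (f z)).1 = (e (f x)).2.1 u) → z = y := by
    intro x u
    obtain ⟨h, φ, hG, h0, hl, had, hs⟩ := exists_chart ha hf x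
    have h00 : (0 : Fin d → ℤ) ∈ ball (Grid d) 3 0 := mem_ball_self _ _ _
    have h04 : (0 : Fin d → ℤ) ∈ ball (Grid d) 4 0 := mem_ball_self _ _ _
    have hv4 : ∀ v : Fin d × Bool, vec v ∈ ball (Grid d) 4 0 := fun v => by
      have := ball_step h00 v
      rwa [add_zero] at this
    have e1 : (e (f x)).2.1 u = (e (h (vec u))).1 := by
      have h6 := hl 0 h04
      rw [h0] at h6
      have := hG.nb 0 h00 u
      rw [add_zero] at this
      rw [h6, this]
    refine ⟨φ (vec u), ⟨?_, ?_⟩, ?_⟩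
    · have := had 0 h00 u
      rwa [h0, add_zero] at this
    · rw [hl _ (hv4 u), e1]
    · rintro z ⟨hz1, hz2⟩
      obtain ⟨v, rfl⟩ := hs z hz1
      rw [hl _ (hv4 v), e1] at hz2
      by_contra hne
      have huv : v ≠ u := fun h => hne (by rw [h])
      have := hG.ne 0 h00 v u huv
      rw [add_zero, add_zero] at this
      exact this hz2
  choose nb h1 h2 using hex
  have hiff : ∀ x u y, ((AGraph ha).Adj x y ∧ (e (f y)).1 = (e (f x)).2.1 u) ↔ y = nb x u := by
    intro x u y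
    constructor
    · exact h2 x u y
    · rintro rfl
      exact h1 x u
  -- charts
  have hchart : ∀ x, ∃ (h : (Fin d → ℤ) → Fin k) (φ : (Fin d → ℤ) → X), Good hd e h ∧ φ 0 = x ∧
      (∀ g ∈ ball (Grid d) 4 0, f (φ g) = h g) ∧
      (∀ g ∈ ball (Grid d) 3 0, ∀ u, φ (vec u + g) = nb (φ g) u) ∧
      ∀ y, (AGraph ha).Adj x y → ∃ u, y = φ (vec u) := by
    intro x
    obtain ⟨h, φ, hG, h0, hl, had, hs⟩ := exists_chart ha hf x
    refine ⟨h, φ, hG, h0, hl, ?_, hs⟩
    intro g hg u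
    rw [← hiff]
    refine ⟨had g hg u, ?_⟩
    rw [hl _ (ball_mono (by norm_num) hg), hl _ (ball_step hg u)]
    exact (hG.nb g hg u).symm
  have h0r : ∀ r, (0 : Fin d → ℤ) ∈ ball (Grid d) r 0 := fun r => mem_ball_self _ _ _
  have hv : ∀ (r : ℕ) (v : Fin d × Bool), vec v ∈ ball (Grid d) (r + 1) 0 := fun r v => by
      have := ball_step (h0r r) v
      rwa [add_zero] at this
  have hone : ∀ x, ∀ φ : (Fin d → ℤ) → X, φ 0 = x →
      (∀ g ∈ ball (Grid d) 3 0, ∀ u, φ (vec u + g) = nb (φ g) u) → ∀ u, φ (vec u) = nb x u := by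
    intro x φ h0 hn u
    have := hn 0 (h0r 3) u
    rwa [add_zero, h0] at this
  refine ⟨nb, hiff, ?_, ?_, ?_, ?_, ?_⟩
  · intro x y hy
    obtain ⟨h, φ, hG, h0, hl, hn, hs⟩ := hchart x
    obtain ⟨u, rfl⟩ := hs y hy
    exact ⟨u, hone x φ h0 hn u⟩
  · intro x u v huv
    obtain ⟨h, φ, hG, h0, hl, hn, hs⟩ := hchart x
    rw [← hone x φ h0 hn, ← hone x φ h0 hn] at huv
    by_contra hne
    have h3 := hG.ne 0 (h0r 3) u v hne
    rw [add_zero, add_zero, ← hl _ (hv 3 u), ← hl _ (hv 3 v), huv] at h3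
    exact h3 rfl
  · intro x u v
    obtain ⟨h, φ, hG, h0, hl, hn, hs⟩ := hchart x
    rw [← hone x φ h0 hn, ← hone x φ h0 hn, ← hn _ (hv 2 u), ← hn _ (hv 2 v), add_comm]
  · intro x u
    obtain ⟨h, φ, hG, h0, hl, hn, hs⟩ := hchart x
    rw [← hone x φ h0 hn, ← hn _ (hv 2 u), vec_op, neg_add_cancel, h0]
  · intro x
    obtain ⟨h, φ, hG, h0, hl, hn, hs⟩ := hchart x
    refine ⟨φ, h0, hn, fun s hs' => ?_⟩
    refine Rule_congr ?_ hG.rule
    intro t z ht hz
    rw [zero_add, zero_add]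
    obtain ⟨h5, h6⟩ := hs' t z ht hz
    rw [h6, hl _ h5]

end Local

section Perm

variable {d m k : ℕ} {hd : 2 ≤ d} {e : Fin k ≃ Sg d m} {X : Type} {a : (Fin d → ℤ) → X → X}
  {ha : FreeAct a} {f : X → Fin k} {nb : X → Fin d × Bool → X} (N : Nb hd e ha f nb)
include N

/-- One step in direction `u`, as a permutation. -/
def Nb.st (u : Fin d × Bool) : Equiv.Perm X where
  toFun x := nb x u
  invFun x := nb x (op u)
  left_inv x := N.inv x u
  right_inv x := by
    have := N.inv x (op u)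
    rwa [op_op] at this

theorem Nb.st_comm (u v : Fin d × Bool) : Commute (N.st u) (N.st v) := by
  ext x
  exact N.comm x v u

theorem Nb.st_op (u : Fin d × Bool) : N.st (op u) = (N.st u)⁻¹ := by
  ext x
  rfl

/-- The action of `ℤ²` given by the solution. -/
def Nb.T (t z : ℤ) : Equiv.Perm X :=
  N.st (⟨0, by omega⟩, true) ^ t * N.st (⟨1, by omega⟩, true) ^ z

theorem Nb.T_zero : N.T 0 0 = 1 := by simp [Nb.T]

theorem Nb.T_add (s t x z : ℤ) : N.T (s + t) (x + z) = N.T s x * N.T t z := by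
  unfold Nb.T
  rw [zpow_add, zpow_add]
  have h := (((N.st_comm (⟨0, by omega⟩, true) (⟨1, by omega⟩, true)).zpow_left t).zpow_right x).eq
  rw [mul_assoc, mul_assoc]
  congr 1
  rw [← mul_assoc, h, mul_assoc]

theorem Nb.phi_pow {φ : (Fin d → ℤ) → X}
    (hn : ∀ g ∈ ball (Grid d) 3 0, ∀ u, φ (vec u + g) = nb (φ g) u) (u : Fin d × Bool) :
    ∀ (n r : ℕ) (g : Fin d → ℤ), g ∈ ball (Grid d) r 0 → n + r ≤ 4 →
      n • vec u + g ∈ ball (Grid d) (n + r) 0 ∧ φ (n • vec u + g) = (N.st u ^ n) (φ g) := by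
  intro n
  induction n with
  | zero =>
    intro r g hg _
    simp only [zero_smul, zero_add, pow_zero, Equiv.Perm.coe_one, id_eq, and_true]
    exact hg
  | succ n ih =>
    intro r g hg hr
    obtain ⟨h1, h2⟩ := ih r g hg (by omega)
    have h3 := ball_step h1 u
    have e1 : (n + 1) • vec u + g = vec u + (n • vec u + g) := by
      rw [add_smul, one_smul]; abel
    rw [e1]
    refine ⟨by rwa [show n + 1 + r = n + r + 1 by omega], ?_⟩
    rw [hn _ (ball_mono (by omega) h1), h2, pow_succ']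
    rfl

theorem Nb.phi_zpow {φ : (Fin d → ℤ) → X}
    (hn : ∀ g ∈ ball (Grid d) 3 0, ∀ u, φ (vec u + g) = nb (φ g) u) (i : Fin d) (t : ℤ) (r : ℕ)
    (g : Fin d → ℤ) (hg : g ∈ ball (Grid d) r 0) (hr : t.natAbs + r ≤ 4) :
    Pi.single i t + g ∈ ball (Grid d) (t.natAbs + r) 0 ∧
      φ (Pi.single i t + g) = (N.st (i, true) ^ t) (φ g) := by
  rcases Int.natAbs_eq t with ht | ht
  · have h1 := N.phi_pow hn (i, true) t.natAbs r g hg hr
    have e1 : t.natAbs • vec (i, true) = (Pi.single i t : Fin d → ℤ) := by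
      conv_rhs => rw [ht]
      unfold vec
      rw [if_pos rfl, ← Pi.single_smul]
      simp
    rw [e1] at h1
    refine ⟨h1.1, ?_⟩
    rw [h1.2]
    conv_rhs => rw [ht]
    rw [zpow_natCast]
  · have h1 := N.phi_pow hn (i, false) t.natAbs r g hg hr
    have e1 : t.natAbs • vec (i, false) = (Pi.single i t : Fin d → ℤ) := by
      conv_rhs => rw [ht]
      unfold vec
      rw [if_neg (by simp), smul_neg, ← Pi.single_smul, Pi.single_neg]
      simp
    rw [e1] at h1
    refine ⟨h1.1, ?_⟩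
    rw [h1.2]
    conv_rhs => rw [ht]
    rw [zpow_neg, zpow_natCast, ← inv_pow, ← N.st_op]
    rfl

/-- The rule holds for the action of `ℤ²` given by the solution. -/
theorem Nb.rule0 (x : X) : Rule (fun t z => (e (f (N.T t z x))).2.2) 0 0 := by
  obtain ⟨φ, h0, hn, hR⟩ := N.chart x
  refine hR (fun t z => N.T t z x) ?_
  intro t z ht hz
  rw [Int.abs_eq_natAbs] at ht hz
  obtain ⟨h1, h2⟩ := N.phi_zpow hn ⟨1, by omega⟩ z 0 0 (mem_ball_self _ _ _) (by omega)
  obtain ⟨h3, h4⟩ := N.phi_zpow hn ⟨0, by omega⟩ t _ _ h1 (by omega)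
  simp only [add_zero] at h2 h3 h4
  refine ⟨?_, ?_⟩
  · refine ball_mono ?_ h3
    omega
  change _ = φ (Pi.single ⟨0, by omega⟩ t + Pi.single ⟨1, by omega⟩ z)
  rw [h4, h2, h0]
  rfl

theorem Nb.rule (x : X) (t z : ℤ) : Rule (fun t' z' => (e (f (N.T t' z' x))).2.2) t z := by
  refine Rule_congr ?_ (N.rule0 (N.T t z x))
  intro s y _ _
  rw [zero_add, zero_add, add_comm t s, add_comm z y, N.T_add]
  rfl

/-! ### the twist -/

theorem Nb.exists_twist : ∃ b : X → Fin d × Bool → Fin d × Bool,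
    ∀ x u, nb x u = a (vec (b x u)) x := by
  have h : ∀ x u, ∃ w, nb x u = a (vec w) x := fun x u => ((N.iff x u _).2 rfl).1
  choose b hb using h
  exact ⟨b, hb⟩

variable {b : X → Fin d × Bool → Fin d × Bool} (hb : ∀ x u, nb x u = a (vec (b x u)) x)
include hb

theorem Nb.b_inj (x : X) : Function.Injective (b x) := by
  intro u v h
  apply N.inj x
  rw [hb, hb, h]

theorem Nb.b_step (x : X) (v : Fin d × Bool) : b (nb x v) = b x := by
  -- distinct axes
  have h1 : ∀ u, u.1 ≠ v.1 → b (nb x v) u = b x u := by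
    intro u huv
    have e1 : vec (b (nb x v) u) + vec (b x v) = vec (b (nb x u) v) + vec (b x u) := by
      refine ha.inj (x := x) ?_
      rw [ha.add, ha.add, ← hb x v, ← hb x u, ← hb, ← hb]
      exact N.comm x v u
    rcases vec_sum e1 with ⟨h2, -⟩ | ⟨-, h2⟩ | ⟨h2, -⟩
    · exfalso
      have h3 : nb (nb x v) u = x := by
        rw [hb (nb x v) u, h2, hb x v, ← ha.add, neg_add_cancel, ha.zero]
      have h4 : nb x v = nb x (op u) := by
        have := N.inv (nb x v) u
        rw [h3] at this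
        exact this.symm
      have h5 := N.inj _ _ _ h4
      rw [h5] at huv
      exact huv rfl
    · exact absurd (congrArg Prod.fst (N.b_inj hb x h2)).symm huv
    · exact h2
  -- the same axis
  have hmem : ∀ w, w.1 = v.1 → w = v ∨ w = op v := by
    rintro ⟨w1, w2⟩ h
    obtain ⟨v1, v2⟩ := v
    simp only at h
    subst h
    unfold op
    cases w2 <;> cases v2 <;> simp
  have hpre : ∀ u, u.1 = v.1 → b (nb x v) u = b x v ∨ b (nb x v) u = b x (op v) := by
    intro u hu
    obtain ⟨w, hw⟩ := (Finite.injective_iff_surjective.1 (N.b_inj hb x)) (b (nb x v) u)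
    by_cases hwv : w.1 = v.1
    · rcases hmem w hwv with h | h
      · left; rw [← hw, h]
      · right; rw [← hw, h]
    · exfalso
      rw [← h1 w hwv] at hw
      have := N.b_inj hb _ hw
      rw [this] at hwv
      exact hwv hu
  have h2 : b (nb x v) (op v) = op (b x v) := by
    have h3 := N.inv x v
    rw [hb (nb x v) (op v), hb x v, ← ha.add] at h3
    have h4 := ha.free _ _ h3
    rw [← hb x v] at h4
    apply vec_inj
    rw [vec_op]
    exact eq_neg_of_add_eq_zero_left h4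
  have h3 : b (nb x v) (op v) = b x (op v) := by
    rcases hpre (op v) rfl with h | h
    · exfalso
      rw [h2] at h
      have := congrArg Prod.snd h
      simp [op] at this
    · exact h
  have h4 : b (nb x v) v = b x v := by
    rcases hpre v rfl with h | h
    · exact h
    · exfalso
      rw [← h3] at h
      have := congrArg Prod.snd (N.b_inj hb _ h)
      simp [op] at this
  funext u
  by_cases hu : u.1 = v.1
  · rcases hmem u hu with h | h
    · rw [h, h4]
    · rw [h, h3]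
  · exact h1 u hu

theorem Nb.b_act (x : X) (w : Fin d × Bool) : b (a (vec w) x) = b x := by
  obtain ⟨u, hu⟩ := N.surj x (a (vec w) x) ⟨w, rfl⟩
  rw [hu, N.b_step hb]

theorem Nb.st_pow (u : Fin d × Bool) (n : ℕ) (x : X) :
    (N.st u ^ n) x = a (n • vec (b x u)) x ∧ b ((N.st u ^ n) x) = b x := by
  induction n with
  | zero => simp [ha.zero]
  | succ n ih =>
    have e1 : (N.st u ^ (n + 1)) x = nb ((N.st u ^ n) x) u := by
      rw [pow_succ']; rfl
    constructor
    · rw [e1, hb, ih.2, ih.1, ← ha.add, add_smul, one_smul, add_comm (n • _)]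
    · rw [e1, N.b_step hb, ih.2]

theorem Nb.b_op (x : X) (u : Fin d × Bool) : b x (op u) = op (b x u) := by
  have h3 := N.inv x u
  rw [hb (nb x u) (op u), hb x u, ← ha.add] at h3
  have h4 := ha.free _ _ h3
  rw [← hb x u, N.b_step hb] at h4
  apply vec_inj
  rw [vec_op]
  exact eq_neg_of_add_eq_zero_left h4

theorem Nb.st_zpow (i : Fin d) (t : ℤ) (x : X) :
    (N.st (i, true) ^ t) x = a (t • vec (b x (i, true))) x ∧
      b ((N.st (i, true) ^ t) x) = b x := by
  rcases Int.natAbs_eq t with ht | ht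
  · have h1 := N.st_pow hb (i, true) t.natAbs x
    rw [ht, zpow_natCast, natCast_zsmul]
    exact h1
  · have h1 := N.st_pow hb (i, false) t.natAbs x
    have e1 : N.st (i, true) ^ t = N.st (i, false) ^ t.natAbs := by
      conv_lhs => rw [ht]
      rw [zpow_neg, zpow_natCast, ← inv_pow, ← N.st_op]
      rfl
    have e2 : t • vec (b x (i, true)) = t.natAbs • vec (b x (i, false)) := by
      have h3 : b x (i, false) = op (b x (i, true)) := N.b_op hb x (i, true)
      rw [h3, vec_op, smul_neg]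
      conv_lhs => rw [ht]
      rw [neg_smul, natCast_zsmul]
    rw [e1, e2]
    exact h1

theorem Nb.T_eq (t z : ℤ) (x : X) :
    N.T t z x = a (t • vec (b x (⟨0, by omega⟩, true)) + z • vec (b x (⟨1, by omega⟩, true))) x := by
  have h1 := N.st_zpow hb ⟨1, by omega⟩ z x
  have h2 := N.st_zpow hb ⟨0, by omega⟩ t ((N.st (⟨1, by omega⟩, true) ^ z) x)
  change (N.st (⟨0, by omega⟩, true) ^ t) ((N.st (⟨1, by omega⟩, true) ^ z) x) = _
  rw [h2.1, h1.2, h1.1, ← ha.add]

end Perm

end Pool.Agent.Y569.GL
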