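import Pool.Agent.Y569.GL.Sh

set_option autoImplicit false

/-!
# A labelling problem with a Baire measurable solution on the shift graph, but no measurable one
-/

namespace Pool.Agent.Y569.GL

open MeasureTheory Pool.Agent.W927 Topology

open Pool.Agent.W927.BM (Rule emb emb_zero emb_add emb_eq_zero chk neg pos)

/-! ### the positive half -/

/-- The differences of unit vectors. -/
def FF (d : ℕ) : Finset (Fin d → ℤ) :=
  ((Finset.univ : Finset ((Fin d × Bool) × (Fin d × Bool))).image
    (fun p => vec p.1 - vec p.2)).erase 0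

theorem FF_neg {d : ℕ} : ∀ g ∈ FF d, -g ∈ FF d := by
  intro g hg
  unfold FF at hg ⊢
  rw [Finset.mem_erase, Finset.mem_image] at hg ⊢
  obtain ⟨h1, ⟨u, v⟩, -, h2⟩ := hg
  exact ⟨neg_ne_zero.2 h1, (v, u), Finset.mem_univ _, by rw [← h2]; abel⟩

theorem mem_FF {d : ℕ} {u v : Fin d × Bool} (h : u ≠ v) : vec u - vec v ∈ FF d := by
  unfold FF
  rw [Finset.mem_erase, Finset.mem_image]
  exact ⟨fun h0 => h (vec_inj (sub_eq_zero.1 h0)), (u, v), Finset.mem_univ _, rfl⟩

theorem pos_part {d k : ℕ} (hd : 2 ≤ d) (e : Fin k ≃ Sg d ((FF d).card + 1)) {X : Type}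
    [MeasurableSpace X] [StandardBorelSpace X] {a : (Fin d → ℤ) → X → X} (ha : FreeAct a)
    (hm : ∀ g, Measurable (a g)) (L0 : X → Pool.Agent.W927.BM.Lab)
    (hL : ∀ l, MeasurableSet (L0 ⁻¹' {l}))
    (hR : ∀ y, Rule (fun t x => L0 (a (emb hd t x) y)) 0 0) :
    ∃ f : X → Fin k, Measurable f ∧ (prob hd e).IsSolution (AGraph ha) f := by
  obtain ⟨c, hc, hcF⟩ := exists_col ha.zero ha.add hm ha.free (FF d)
    (by simp [FF]) FF_neg
  refine ⟨fun x => e.symm (c x, fun u => c (a (vec u) x), L0 x), ?_, ?_⟩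
  · refine measurable_to_countable' fun i => ?_
    have : (fun x => e.symm (c x, (fun u => c (a (vec u) x)), L0 x)) ⁻¹' {i} =
        (c ⁻¹' {(e i).1}) ∩ ((⋂ u, (fun x => c (a (vec u) x)) ⁻¹' {(e i).2.1 u}) ∩
          L0 ⁻¹' {(e i).2.2}) := by
      ext x
      simp only [Set.mem_preimage, Set.mem_singleton_iff, Set.mem_inter_iff, Set.mem_iInter]
      rw [Equiv.symm_apply_eq, Prod.ext_iff, Prod.ext_iff, funext_iff]
    rw [this]
    refine (hc (measurableSet_singleton _)).inter (MeasurableSet.inter ?_ (hL _))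
    exact MeasurableSet.iInter fun u => (hc.comp (hm _)) (measurableSet_singleton _)
  · intro x
    refine ⟨_, ?_, Quotient.sound (ha.ballRG_iso 4 _ x)⟩
    refine ⟨?_, ?_, ?_⟩
    · intro g _ u
      simp only [Equiv.apply_symm_apply]
      rw [ha.add]
    · intro g _ u v huv
      simp only [Equiv.apply_symm_apply]
      have h1 := hcF (a (vec v + g) x) _ (mem_FF huv)
      rw [← ha.add] at h1
      have h2 : vec u - vec v + (vec v + g) = vec u + g := by abel
      rwa [h2] at h1
    · simp only [Equiv.apply_symm_apply]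
      exact hR x

theorem baire_part {d k : ℕ} (hd : 2 ≤ d) (e : Fin k ≃ Sg d ((FF d).card + 1)) :
    HasBaireSol d (prob hd e) := by
  obtain ⟨f0, G, hf0, hG, -, hGr, hGR⟩ := pos (FreePart d) (fun t x => sa (emb hd t x))
    (fun y => by simp only [emb_zero]; exact sa_free.zero y)
    (fun s t x z y => by simp only [emb_add]; exact sa_free.add _ _ y)
    (fun t x => sa_measurable _)
    (fun t x y h => emb_eq_zero hd (sa_free.free _ _ h))
  set Y : Set (FreePart d) := ⋂ g : Fin d → ℤ, sa g ⁻¹' G with hYdef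
  have hYm : MeasurableSet Y := MeasurableSet.iInter fun g => sa_measurable g hG
  have hYi : IsInv Y := by
    intro x hx g y hy
    rw [eq_sa_iff] at hy
    subst hy
    rw [hYdef, Set.mem_iInter] at hx ⊢
    intro h
    have := hx (h + g)
    rwa [Set.mem_preimage, sa_free.add] at this
  have hYr : Y ∈ residual (FreePart d) := by
    rw [hYdef, countable_iInter_mem]
    intro g
    have h1 : G ∈ (residual (FreePart d)).map (saHomeo g) := by
      rw [Homeomorph.residual_map_eq]; exact hGr
    exact h1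
  have hYG : Y ⊆ G := by
    intro x hx
    have := Set.mem_iInter.1 hx 0
    rwa [Set.mem_preimage, sa_free.zero] at this
  refine ⟨Y, hYm, hYi, hYr, ?_⟩
  have : StandardBorelSpace Y := hYm.standardBorel
  obtain ⟨f, hf, hs⟩ := pos_part hd e (saOn_free hYi) (saOn_measurable hYi) (fun x => f0 x.1)
    (fun l => measurable_subtype_coe (hf0 l)) (fun y => hGR y.1 (hYG y.2) 0 0)
  refine ⟨f, hf, ?_⟩
  rw [graph_eq hYi]
  exact hs

/-! ### the negative half -/

theorem codeF_add {d : ℕ} {α : Fin d → TT} (hα : ∀ g : Fin d → ℤ, g ≠ 0 → addOrderOf (lin α g) = 0)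
    (θ : TT) (g : Fin d → ℤ) : codeF hα (lin α g + θ) = sa g (codeF hα θ) := by
  apply Subtype.ext
  change code α (lin α g + θ) = shift g (code α θ)
  rw [add_comm, code_shift]

theorem neg_part {d m k : ℕ} (hd : 2 ≤ d) (e : Fin k ≃ Sg d m) :
    ¬ HasMeasurableSol d (prob hd e) := by
  classical
  intro H
  obtain ⟨α, hα⟩ := exists_alpha d
  have hP : IsProbabilityMeasure (volume : Measure TT) := ⟨by simp⟩
  obtain ⟨Y, hYm, hYi, hYμ, f, hf, hs⟩ := H (Measure.map (codeF hα) volume)
    (Measure.isProbabilityMeasure_map (measurable_codeF hα).aemeasurable)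
  rw [Measure.map_apply (measurable_codeF hα) hYm.compl] at hYμ
  rw [graph_eq hYi] at hs
  obtain ⟨nb, N⟩ := exists_nb (saOn_free hYi) hs
  obtain ⟨b, hb⟩ := N.exists_twist
  have ha := saOn_free hYi
  -- the twist is measurable
  have hbiff : ∀ (y : Y) (w : Fin d × Bool → Fin d × Bool), b y = w ↔
      ∀ u, (e (f (saOn hYi (vec (w u)) y))).1 = (e (f y)).2.1 u := by
    intro y w
    constructor
    · rintro rfl u
      rw [← hb]
      exact ((N.iff y u _).2 rfl).2
    · intro h
      funext u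
      have h1 := (N.iff y u (saOn hYi (vec (w u)) y)).1 ⟨⟨w u, rfl⟩, h u⟩
      rw [hb] at h1
      exact (vec_inj (ha.inj h1)).symm
  have hbm : ∀ w, MeasurableSet {y : Y | b y = w} := by
    intro w
    have : {y : Y | b y = w} = ⋂ u, {y : Y | (e (f (saOn hYi (vec (w u)) y))).1 =
        (e (f y)).2.1 u} := by
      ext y
      simp only [Set.mem_ofPred_eq, Set.mem_iInter]
      exact hbiff y w
    rw [this]
    refine MeasurableSet.iInter fun u => ?_
    have h1 : Measurable fun y : Y => (e (f (saOn hYi (vec (w u)) y))).1 :=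
      (measurable_of_finite (fun i : Fin k => (e i).1)).comp (hf.comp (saOn_measurable hYi _))
    have h2 : Measurable fun y : Y => (e (f y)).2.1 u :=
      (measurable_of_finite (fun i : Fin k => (e i).2.1 u)).comp hf
    exact measurableSet_eq_fun h1 h2
  let E : (Fin d × Bool → Fin d × Bool) → Set TT := fun w =>
    codeF hα ⁻¹' (Subtype.val '' {y : Y | b y = w})
  have hEmem : ∀ w θ, θ ∈ E w ↔ ∃ h : codeF hα θ ∈ Y, b ⟨codeF hα θ, h⟩ = w := by
    intro w θ
    constructor
    · rintro ⟨⟨y, hy⟩, hyw, h⟩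
      simp only at h
      subst h
      exact ⟨hy, hyw⟩
    · rintro ⟨h, hw⟩
      exact ⟨⟨_, h⟩, hw, rfl⟩
  have hEm : ∀ w, MeasurableSet (E w) := fun w =>
    measurable_codeF hα (hYm.subtype_image (hbm w))
  have hEshift : ∀ w θ v, θ ∈ E w → lin α (vec v) + θ ∈ E w := by
    intro w θ v hθ
    rw [hEmem] at hθ ⊢
    obtain ⟨h, hw⟩ := hθ
    have h1 : codeF hα (lin α (vec v) + θ) = (saOn hYi (vec v) ⟨codeF hα θ, h⟩).1 :=
      codeF_add hα θ (vec v)
    have h2 : codeF hα (lin α (vec v) + θ) ∈ Y := by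
      rw [h1]; exact (saOn hYi (vec v) ⟨codeF hα θ, h⟩).2
    refine ⟨h2, ?_⟩
    have h3 : (⟨codeF hα (lin α (vec v) + θ), h2⟩ : Y) = saOn hYi (vec v) ⟨codeF hα θ, h⟩ :=
      Subtype.ext h1
    rw [h3, N.b_act hb, hw]
  let i0 : Fin d := ⟨0, by omega⟩
  let i1 : Fin d := ⟨1, by omega⟩
  have hEinv : ∀ w, (fun θ => lin α (vec (i0, true)) + θ) ⁻¹' E w = E w := by
    intro w
    ext θ
    constructor
    · intro h
      have h1 := hEshift w _ (op (i0, true)) h
      rwa [vec_op, map_neg, neg_add_cancel_left] at h1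
    · exact fun h => hEshift w θ _ h
  have herg : ∀ g : Fin d → ℤ, g ≠ 0 → Ergodic (fun θ : TT => lin α g + θ) volume := fun g hg =>
    AddCircle.ergodic_add_left.2 (hα g hg)
  have hE01 : ∀ w, E w =ᵐ[volume] (∅ : Set TT) ∨ E w =ᵐ[volume] Set.univ := fun w =>
    (herg _ (vec_ne_zero (i0, true))).toPreErgodic.ae_empty_or_univ (hEm w) (hEinv w)
  obtain ⟨w, hw⟩ : ∃ w, E w =ᵐ[volume] Set.univ := by
    by_contra hcon
    push Not at hcon
    have h1 : ∀ w, volume (E w) = 0 := fun w => by
      rcases hE01 w with h | h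
      · exact ae_eq_empty.1 h
      · exact absurd h (hcon w)
    have h2 : volume (⋃ w, E w) = 0 := measure_iUnion_null h1
    have h3 : volume (Set.univ : Set TT) = 0 := by
      refine measure_mono_null ?_ (measure_union_null h2 hYμ)
      intro θ _
      by_cases h : codeF hα θ ∈ Y
      · left
        exact Set.mem_iUnion.2 ⟨b ⟨_, h⟩, (hEmem _ _).2 ⟨h, rfl⟩⟩
      · right
        exact h
    rw [measure_univ] at h3
    exact one_ne_zero h3
  have hwae : ∀ᵐ θ : TT, θ ∈ E w := by
    filter_upwards [hw.mem_iff] with θ hθ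
    exact hθ.2 (Set.mem_univ θ)
  set v0 : Fin d → ℤ := vec (w (i0, true)) with hv0
  set v1 : Fin d → ℤ := vec (w (i1, true)) with hv1
  have hv1ne : v1 ≠ 0 := vec_ne_zero _
  let T : ℤ → ℤ → TT → TT := fun t z θ => lin α (t • v0 + z • v1) + θ
  let F : TT → Pool.Agent.W927.BM.Lab := fun θ =>
    if h : codeF hα θ ∈ Y then (e (f ⟨codeF hα θ, h⟩)).2.2 else chk false
  refine neg TT volume T (fun y => ?_) (fun s t x z y => ?_) (fun t x => ?_) ?_ ⟨F, fun l => ?_, ?_⟩
  · simp [T]
  · simp only [T]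
    rw [← add_assoc, ← map_add]
    congr 2
    rw [add_smul, add_smul]
    abel
  · exact measurePreserving_add_left volume _
  · have : T 0 1 = fun θ => lin α v1 + θ := by
      funext θ
      simp [T]
    rw [this]
    exact herg v1 hv1ne
  · have h1 : F ⁻¹' {l} = codeF hα ⁻¹' (Subtype.val '' {y : Y | (e (f y)).2.2 = l}) ∪
        (codeF hα ⁻¹' Yᶜ ∩ {_θ | chk false = l}) := by
      ext θ
      simp only [Set.mem_preimage, Set.mem_singleton_iff, Set.mem_union, Set.mem_inter_iff,
        Set.mem_compl_iff, Set.mem_ofPred_eq, F]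
      by_cases h : codeF hα θ ∈ Y
      · rw [dif_pos h]
        constructor
        · intro h1
          exact Or.inl ⟨⟨_, h⟩, h1, rfl⟩
        · rintro (⟨⟨y, hy⟩, h1, h2⟩ | ⟨h1, -⟩)
          · simp only at h2
            subst h2
            exact h1
          · exact absurd h h1
      · rw [dif_neg h]
        constructor
        · intro h1
          exact Or.inr ⟨h, h1⟩
        · rintro (⟨⟨y, hy⟩, h1, h2⟩ | ⟨-, h1⟩)
          · simp only at h2
            subst h2
            exact absurd hy h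
          · exact h1
    rw [h1]
    have h2 : MeasurableSet {y : Y | (e (f y)).2.2 = l} := by
      have : {y : Y | (e (f y)).2.2 = l} = f ⁻¹' {i | (e i).2.2 = l} := rfl
      rw [this]
      exact hf (MeasurableSet.of_discrete)
    exact (measurable_codeF hα (hYm.subtype_image h2)).union
      ((measurable_codeF hα hYm.compl).inter (MeasurableSet.const _))
  · filter_upwards [hwae] with θ hθ
    obtain ⟨h, hbw⟩ := (hEmem w θ).1 hθ
    intro t z
    have h1 := N.rule ⟨codeF hα θ, h⟩ t z
    have h2 : (fun t' z' => F (T t' z' θ)) =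
        fun t' z' => (e (f (N.T t' z' ⟨codeF hα θ, h⟩))).2.2 := by
      funext t' z'
      have h3 : codeF hα (T t' z' θ) = (N.T t' z' ⟨codeF hα θ, h⟩).1 := by
        rw [N.T_eq hb, hbw]
        exact codeF_add hα θ _
      have h4 : codeF hα (T t' z' θ) ∈ Y := by
        rw [h3]; exact (N.T t' z' ⟨codeF hα θ, h⟩).2
      simp only [F]
      rw [dif_pos h4]
      have h5 : (⟨codeF hα (T t' z' θ), h4⟩ : Y) = N.T t' z' ⟨codeF hα θ, h⟩ := Subtype.ext h3
      rw [h5]
    rw [h2]
    exact h1

theorem measurable_of_borel {d : ℕ} {L : LCL} (h : HasBorelSol d L) : HasMeasurableSol d L := by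
  obtain ⟨f, hf, hs⟩ := h
  intro μ _
  have hU : IsInv (Set.univ : Set (FreePart d)) := fun _ _ _ _ _ => Set.mem_univ _
  refine ⟨Set.univ, MeasurableSet.univ, hU, by simp, fun x => f x.1,
    hf.comp measurable_subtype_coe, ?_⟩
  intro v
  have h1 := hs v.1
  have hU' : FreeAct (sa (d := d)) := sa_free
  have hG : ShiftGraph d = AGraph hU' := by
    ext x y
    change (∃ i : Fin d, y.1 = shift (Pi.single i 1) x.1 ∨
      y.1 = shift (-Pi.single i 1) x.1) ↔ ∃ u : Fin d × Bool, y = sa (vec u) x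
    constructor
    · rintro ⟨i, h | h⟩
      · exact ⟨(i, true), Subtype.ext h⟩
      · exact ⟨(i, false), Subtype.ext h⟩
    · rintro ⟨⟨i, b⟩, h⟩
      have h1 : y.1 = shift (vec (i, b)) x.1 := congrArg (fun z => z.1) h
      cases b
      · exact ⟨i, Or.inr h1⟩
      · exact ⟨i, Or.inl h1⟩
  rw [graph_eq hU]
  rw [hG] at h1
  have h2 := Quotient.sound (s := RG.setoid L.k) (hU'.ballRG_iso L.r f v.1)
  have h3 := Quotient.sound (s := RG.setoid L.k)
    ((saOn_free hU).ballRG_iso L.r (fun x => f x.1) v)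
  rw [← h3]
  rw [← h2] at h1
  exact h1

/-- For every `d ≥ 2` there is a locally checkable labelling problem which has a Baire measurable
solution on the shift graph, but no measurable solution and no Borel solution. -/
theorem main (d : ℕ) (hd : 2 ≤ d) :
    ∃ L : LCL, HasBaireSol d L ∧ ¬ HasMeasurableSol d L ∧ ¬ HasBorelSol d L := by
  let e : Fin (Fintype.card (Sg d ((FF d).card + 1))) ≃ Sg d ((FF d).card + 1) :=
    (Fintype.equivFin _).symm
  exact ⟨prob hd e, baire_part hd e, neg_part hd e, fun h => neg_part hd e (measurable_of_borel h)⟩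

end Pool.Agent.Y569.GL
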