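import Pool.Agent.Y569.GL.Loc
import Pool.Agent.Y569.GL.Ind

set_option autoImplicit false

/-!
# The shift graph

Topology of the free part of `2^{ℤ^d}`, the shift action on it, and its graph.
-/

namespace Pool.Agent.Y569.GL

open MeasureTheory Pool.Agent.W927 Topology

/-- A countable intersection of open subsets of a Polish space is Polish. -/
theorem polish_iInter {X : Type*} [TopologicalSpace X] [PolishSpace X] (U : ℕ → Set X)
    (hU : ∀ n, IsOpen (U n)) : PolishSpace {x // ∀ n, x ∈ U n} := by
  have hP : ∀ n, PolishSpace (U n) := fun n => (hU n).polishSpace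
  let φ : {x // ∀ n, x ∈ U n} → ∀ n, U n := fun x n => ⟨x.1, x.2 n⟩
  have hφc : Continuous φ := by fun_prop
  have hemb : IsEmbedding φ := by
    have h1 : IsEmbedding (fun z : {x // ∀ n, x ∈ U n} => z.1) := IsEmbedding.subtypeVal
    have h2 : Continuous fun z : (∀ n, U n) => (z 0).1 := by fun_prop
    exact IsEmbedding.of_comp hφc h2 h1
  have hcl : IsClosed (Set.range φ) := by
    have : Set.range φ = ⋂ n, {z : ∀ n, U n | (z n).1 = (z 0).1} := by
      ext z
      simp only [Set.mem_range, Set.mem_iInter, Set.mem_ofPred_eq]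
      constructor
      · rintro ⟨x, rfl⟩ n
        rfl
      · intro h
        refine ⟨⟨(z 0).1, fun n => ?_⟩, ?_⟩
        · rw [← h n]; exact (z n).2
        · funext n
          exact Subtype.ext (h n).symm
    rw [this]
    refine isClosed_iInter fun n => isClosed_eq ?_ ?_ <;> fun_prop
  exact IsClosedEmbedding.polishSpace ⟨hemb, hcl⟩

instance instPolishConf (d : ℕ) : PolishSpace (Conf d Bool) := by
  have : TopologicalSpace.IsCompletelyMetrizableSpace (Conf d Bool) := inferInstance
  have : SecondCountableTopology (Conf d Bool) := inferInstance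
  constructor

instance instPolishFreePart (d : ℕ) : PolishSpace (FreePart d) := by
  have hne : Nonempty (Fin d → ℤ) := ⟨0⟩
  obtain ⟨q, hq⟩ := exists_surjective_nat (Fin d → ℤ)
  have hcont : ∀ g : Fin d → ℤ, Continuous (fun x : Conf d Bool => shift g x) := by
    intro g
    unfold shift
    fun_prop
  have h1 := polish_iInter (X := Conf d Bool) (fun n => {x | q n ≠ 0 → shift (q n) x ≠ x}) (by
    intro n
    by_cases h : q n = 0
    · have : {x : Conf d Bool | q n ≠ 0 → shift (q n) x ≠ x} = Set.univ := by
        ext x; simp [h]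
      rw [this]
      exact isOpen_univ
    · have : {x : Conf d Bool | q n ≠ 0 → shift (q n) x ≠ x} = {x | shift (q n) x ≠ x} := by
        ext x; simp [h]
      rw [this]
      exact isOpen_ne_fun (hcont _) continuous_id)
  let φ : FreePart d ≃ₜ {x : Conf d Bool // ∀ n, x ∈ {x : Conf d Bool | q n ≠ 0 →
      shift (q n) x ≠ x}} :=
    Homeomorph.subtype (Homeomorph.refl _) (by
      intro x
      simp only [Homeomorph.refl_apply, Set.mem_ofPred_eq]
      constructor
      · intro h n hn
        exact h _ hn
      · intro h g hg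
        obtain ⟨n, rfl⟩ := hq g
        exact h n hg)
  exact φ.isClosedEmbedding.polishSpace

section

variable {d : ℕ}

theorem shift_add (g h : Fin d → ℤ) {A : Type*} (x : Conf d A) :
    shift (g + h) x = shift g (shift h x) := by
  funext k
  simp only [shift]
  congr 1
  abel

theorem shift_zero {A : Type*} (x : Conf d A) : shift 0 x = x := by
  funext k
  simp [shift]

/-- The shift action on the free part. -/
def sa (g : Fin d → ℤ) (x : FreePart d) : FreePart d :=
  ⟨shift g x.1, fun h hh e => x.2 h hh (by
    have h1 := congrArg (shift (-g)) e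
    rwa [← shift_add, ← shift_add, ← shift_add, add_comm (-g) h, neg_add_cancel,
      neg_add_cancel_right, shift_zero] at h1)⟩

theorem sa_free : FreeAct (sa (d := d)) where
  zero x := Subtype.ext (shift_zero _)
  add g h x := Subtype.ext (shift_add g h _)
  free g x h := by
    by_contra hg
    exact x.2 g hg (congrArg Subtype.val h)

theorem sa_continuous (g : Fin d → ℤ) : Continuous (sa (d := d) g) := by
  refine Continuous.subtype_mk ?_ _
  refine continuous_pi fun h => ?_
  exact (continuous_apply (h + g)).comp continuous_subtype_val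

theorem sa_measurable (g : Fin d → ℤ) : Measurable (sa (d := d) g) :=
  (sa_continuous g).measurable

/-- The shift as a homeomorphism. -/
def saHomeo (g : Fin d → ℤ) : FreePart d ≃ₜ FreePart d where
  toFun := sa g
  invFun := sa (-g)
  left_inv x := by rw [← sa_free.add, neg_add_cancel, sa_free.zero]
  right_inv x := by rw [← sa_free.add, add_neg_cancel, sa_free.zero]
  continuous_toFun := sa_continuous g
  continuous_invFun := sa_continuous (-g)

theorem eq_sa_iff {g : Fin d → ℤ} {x y : FreePart d} : y.1 = shift g x.1 ↔ y = sa g x :=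
  ⟨fun h => Subtype.ext h, fun h => congrArg Subtype.val h⟩

/-- The shift graph `S_{ℤ^d}`: the vertices are the points of the free part of `2^{ℤ^d}`, and `x` is
adjacent to `e_i • x` and `(- e_i) • x`. -/
def ShiftGraph (d : ℕ) : SimpleGraph (FreePart d) where
  Adj x y := ∃ i : Fin d, y.1 = shift (Pi.single i 1) x.1 ∨ y.1 = shift (-Pi.single i 1) x.1
  symm := ⟨by
    rintro x y ⟨i, h | h⟩
    · refine ⟨i, Or.inr ?_⟩
      rw [h, ← shift_add, neg_add_cancel, shift_zero]
    · refine ⟨i, Or.inl ?_⟩
      rw [h, ← shift_add, add_neg_cancel, shift_zero]⟩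
  loopless := ⟨by
    rintro x ⟨i, h | h⟩
    · refine x.2 (Pi.single i 1) ?_ h.symm
      intro h0
      have := congrFun h0 i
      simp at this
    · refine x.2 (-Pi.single i 1) ?_ h.symm
      intro h0
      have := congrFun h0 i
      simp at this⟩

/-- A set of points of the free part is invariant. -/
def IsInv (Y : Set (FreePart d)) : Prop :=
  ∀ x ∈ Y, ∀ (g : Fin d → ℤ) (y : FreePart d), y.1 = shift g x.1 → y ∈ Y

/-- There is a Borel solution of `L` on the set `Y` of vertices of the shift graph. -/
def SolOn (L : LCL) (Y : Set (FreePart d)) : Prop :=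
  ∃ f : Y → Fin L.k, Measurable f ∧ L.IsSolution ((ShiftGraph d).induce Y) f

/-- The shift graph has a Borel solution of `L`. -/
def HasBorelSol (d : ℕ) (L : LCL) : Prop :=
  ∃ f : FreePart d → Fin L.k, Measurable f ∧ L.IsSolution (ShiftGraph d) f

/-- The shift graph has a measurable solution of `L`: for every Borel probability measure there is a
Borel solution on an invariant conull Borel set. -/
def HasMeasurableSol (d : ℕ) (L : LCL) : Prop :=
  ∀ μ : Measure (FreePart d), IsProbabilityMeasure μ →
    ∃ Y : Set (FreePart d), MeasurableSet Y ∧ IsInv Y ∧ μ Yᶜ = 0 ∧ SolOn L Y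

/-- The shift graph has a Baire measurable solution of `L`: a Borel solution on an invariant
comeagre Borel set. -/
def HasBaireSol (d : ℕ) (L : LCL) : Prop :=
  ∃ Y : Set (FreePart d), MeasurableSet Y ∧ IsInv Y ∧ Y ∈ residual (FreePart d) ∧ SolOn L Y

/-- The action on an invariant set. -/
def saOn {Y : Set (FreePart d)} (hY : IsInv Y) (g : Fin d → ℤ) (x : Y) : Y :=
  ⟨sa g x.1, hY x.1 x.2 g _ rfl⟩

theorem saOn_free {Y : Set (FreePart d)} (hY : IsInv Y) : FreeAct (saOn hY) where
  zero _ := Subtype.ext (sa_free.zero _)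
  add _ _ _ := Subtype.ext (sa_free.add _ _ _)
  free g x h := sa_free.free g x.1 (congrArg Subtype.val h)

theorem saOn_measurable {Y : Set (FreePart d)} (hY : IsInv Y) (g : Fin d → ℤ) :
    Measurable (saOn hY g) :=
  ((sa_measurable g).comp measurable_subtype_coe).subtype_mk

theorem graph_eq {Y : Set (FreePart d)} (hY : IsInv Y) :
    (ShiftGraph d).induce Y = AGraph (saOn_free hY) := by
  ext x y
  change (∃ i : Fin d, y.1.1 = shift (Pi.single i 1) x.1.1 ∨
    y.1.1 = shift (-Pi.single i 1) x.1.1) ↔ ∃ u : Fin d × Bool, y = saOn hY (vec u) x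
  constructor
  · rintro ⟨i, h | h⟩
    · exact ⟨(i, true), Subtype.ext (Subtype.ext h)⟩
    · exact ⟨(i, false), Subtype.ext (Subtype.ext h)⟩
  · rintro ⟨⟨i, b⟩, h⟩
    have h1 : y.1.1 = shift (vec (i, b)) x.1.1 := congrArg (fun z => z.1.1) h
    cases b
    · exact ⟨i, Or.inr h1⟩
    · exact ⟨i, Or.inl h1⟩

end

end Pool.Agent.Y569.GL
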